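import Mathlib

namespace Pool.Agent.Results.MP_510a26_co.All

open Function

variable {α β : Type}

/-- Every symbol occurs exactly once in each row and exactly once in each column. -/
def Latin (L : α → α → α) : Prop := (∀ r, Bijective (L r)) ∧ ∀ c, Bijective (fun r => L r c)

/-- The ordered pairs `(L i j, M i j)` are pairwise distinct. -/
def Orth (L M : α → α → α) : Prop := Injective (fun p : α × α => (L p.1 p.2, M p.1 p.2))

/-- The rows `R` and the columns `C` form an intercalate of `L`. -/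
def Inter (L : α → α → α) (R C : Set α) : Prop :=
  ∃ r r' c c', r ≠ r' ∧ c ≠ c' ∧ R = {r, r'} ∧ C = {c, c'} ∧ L r c = L r' c' ∧ L r c' = L r' c

/-- Every cell of `L` lies in exactly `h` intercalates. -/
def Homog (h : ℕ) (L : α → α → α) : Prop :=
  ∀ i j, {p : Set α × Set α | Inter L p.1 p.2 ∧ i ∈ p.1 ∧ j ∈ p.2}.ncard = h

noncomputable def N (L : α → α → α) (r c : α) : ℕ :=
  Nat.card {p : α × α // L r c = L p.1 p.2 ∧ L r p.2 = L p.1 c}

lemma homog [Finite α] {L : α → α → α} (hL : Latin L) {h : ℕ} (hN : ∀ r c, N L r c = h + 1) :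
    Homog h L := by
  intro i j
  have e := hN i j
  let S : Set (α × α) := {p | L i j = L p.1 p.2 ∧ L i p.2 = L p.1 j}
  have e' : S.ncard = h + 1 := e
  have m : (i, j) ∈ S := ⟨rfl, rfl⟩
  have e2 := Set.ncard_sdiff_singleton_add_one m
  have ne : ∀ p ∈ S \ {(i, j)}, p.1 ≠ i ∧ p.2 ≠ j := by
    rintro ⟨r, c⟩ ⟨⟨a, b⟩, d⟩
    constructor
    · rintro rfl
      exact d (by rw [(hL.1 _).1 a]; rfl)
    · rintro rfl
      exact d (by rw [(hL.2 _).1 a]; rfl)
  rw [show h = (S \ {(i, j)}).ncard by omega]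
  symm
  refine Set.ncard_congr (fun p _ => ({i, p.1}, {j, p.2})) ?_ ?_ ?_
  · intro p hp
    exact ⟨⟨i, p.1, j, p.2, (ne p hp).1.symm, (ne p hp).2.symm, rfl, rfl, hp.1.1, hp.1.2⟩,
      by simp, by simp⟩
  · intro p q hp hq e
    have a := (Prod.ext_iff.1 e).1
    have b := (Prod.ext_iff.1 e).2
    have := ne p hp
    have := ne q hq
    simp only [Set.pair_eq_pair_iff] at a b
    ext <;> grind
  · rintro ⟨R, C⟩ ⟨⟨r, r', c, c', a, b, rfl, rfl, d, e⟩, (rfl | rfl), (rfl | rfl)⟩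
    · exact ⟨(r', c'), ⟨⟨d, e⟩, by simp [a.symm]⟩, rfl⟩
    · exact ⟨(r', c), ⟨⟨e, d⟩, by simp [a.symm]⟩, by simp [Set.pair_comm]⟩
    · exact ⟨(r, c'), ⟨⟨e.symm, d.symm⟩, by simp [a]⟩, by simp [Set.pair_comm]⟩
    · exact ⟨(r, c), ⟨⟨d.symm, e.symm⟩, by simp [a]⟩, by simp [Set.pair_comm]⟩

def P (k : ℕ) : Prop := ∃ (α : Type) (_ : Finite α) (_ : Nonempty α) (L M : α → α → α),
  Latin L ∧ Latin M ∧ Orth L M ∧ (∀ r c, N L r c = k) ∧ ∀ r c, N M r c = k

def pr (L : α → α → α) (M : β → β → β) (r c : α × β) : α × β := (L r.1 c.1, M r.2 c.2)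

lemma Latin.pr {L : α → α → α} {M : β → β → β} (h : Latin L) (h' : Latin M) : Latin (pr L M) :=
  ⟨fun r => (h.1 r.1).prodMap (h'.1 r.2), fun c => (h.2 c.1).prodMap (h'.2 c.2)⟩

lemma N_pr (L : α → α → α) (M : β → β → β) (r c : α × β) :
    N (pr L M) r c = N L r.1 c.1 * N M r.2 c.2 := by
  rw [N, N, N, ← Nat.card_prod, ← Nat.card_congr Equiv.subtypeProdEquivProd]
  refine Nat.card_congr ((Equiv.prodProdProdComm α β α β).subtypeEquiv ?_)
  rintro ⟨⟨a, b⟩, d, e⟩
  simp only [pr, Prod.mk.injEq, Equiv.prodProdProdComm_apply]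
  tauto

lemma P_mul {a b : ℕ} (ha : P a) (hb : P b) : P (a * b) := by
  obtain ⟨α, _, _, L, M, h1, h2, h3, h4, h5⟩ := ha
  obtain ⟨β, _, _, L', M', g1, g2, g3, g4, g5⟩ := hb
  refine ⟨α × β, inferInstance, inferInstance, pr L L', pr M M', h1.pr g1, h2.pr g2, ?_,
    fun r c => by rw [N_pr, h4, g4], fun r c => by rw [N_pr, h5, g5]⟩
  rintro ⟨⟨a, b⟩, c, d⟩ ⟨⟨a', b'⟩, c', d'⟩ e
  simp only [pr, Prod.mk.injEq] at e
  have x := @h3 (a, c) (a', c') (Prod.ext e.1.1 e.2.1)
  have y := @g3 (b, d) (b', d') (Prod.ext e.1.2 e.2.2)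
  simp only [Prod.mk.injEq] at x y ⊢
  tauto

lemma P_one : P 1 := by
  refine ⟨Unit, inferInstance, inferInstance, fun _ _ => (), fun _ _ => (), by
    constructor <;> decide, by constructor <;> decide, fun _ _ _ => Subsingleton.elim _ _, ?_, ?_⟩ <;>
  · intro r c; simp [N]

abbrev K := ZMod 2 × ZMod 2

def F {A : Type} [CommRing A] (ψ f : K → A) (r c : K × A) : K × A :=
  (r.1 + c.1, r.2 + ψ r.1 * c.2 + f c.1)

lemma N_F {A : Type} [CommRing A] [Finite A] (ψ f : K → A) (r c : K × A) : N (F ψ f) r c =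
    ∑ t : K, Nat.card {z : A // (ψ r.1 + ψ (r.1 + t)) * z = 2 * (f (c.1 + t) - f c.1)} := by
  rw [← Nat.card_sigma]
  obtain ⟨a, x⟩ := r
  obtain ⟨b, y⟩ := c
  have k1 : ∀ a b t : K, a + b = a + t + (b + t) := by decide
  have k2 : ∀ a b t : K, a + (b + t) = a + t + b := by decide
  have k3 : ∀ a b a' b' : K, a + b = a' + b' → ∃ t, a' = a + t ∧ b' = b + t := by decide
  symm
  refine Nat.card_eq_of_bijective (fun s => ⟨((a + s.1, x + ψ a * y + f b - ψ (a + s.1) * (y - s.2.1)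
    - f (b + s.1)), (b + s.1, y - s.2.1)), Prod.ext (k1 _ _ _) (by simp only [F]; ring),
    Prod.ext (k2 _ _ _) (by have := s.2.2; simp only [F] at *; linear_combination -this)⟩) ⟨?_, ?_⟩
  · rintro ⟨t, z, hz⟩ ⟨t', z', hz'⟩ e
    simp only [Subtype.mk.injEq, Prod.mk.injEq, add_right_inj, sub_right_inj] at e
    obtain ⟨-, rfl, rfl⟩ := e
    rfl
  · rintro ⟨⟨⟨a', x'⟩, b', y'⟩, h1, h2⟩
    simp only [F, Prod.mk.injEq] at h1 h2
    obtain ⟨t, rfl, rfl⟩ := k3 _ _ _ _ h1.1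
    refine ⟨⟨t, y - y', by simp only; linear_combination h1.2 - h2.2⟩, ?_⟩
    simp only [Subtype.mk.injEq, Prod.mk.injEq, true_and]
    exact ⟨by linear_combination h1.2, by ring⟩

lemma P_F {A : Type} [CommRing A] [Finite A] (ψ f : K → A) (hψ : ∀ a, IsUnit (ψ a))
    (h2 : IsUnit (2 : A)) (k : ℕ) (hk : ∀ a b : K,
      ∑ t : K, Nat.card {z : A // (ψ a + ψ (a + t)) * z = 2 * (f (b + t) - f b)} = k) : P k := by
  let w : K → K := fun b => (b.2, b.1 + b.2)
  have wi : Injective w := by decide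
  let σ : K × A → K × A := fun c => (w c.1, 2 * c.2)
  have σi : Bijective σ := by
    refine Finite.injective_iff_bijective.1 ?_
    rintro ⟨a, x⟩ ⟨b, y⟩ e
    simp only [σ, Prod.mk.injEq] at e
    rw [wi e.1, h2.mul_left_cancel e.2]
  have l : Latin (F ψ f) := by
    constructor
    · rintro ⟨a, x⟩
      refine Finite.injective_iff_bijective.1 ?_
      rintro ⟨b, y⟩ ⟨b', y'⟩ e
      simp only [F, Prod.mk.injEq, add_right_inj] at e
      obtain ⟨rfl, e⟩ := e
      rw [(hψ a).mul_left_cancel (by simpa using e : ψ a * y = ψ a * y')]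
    · rintro ⟨b, y⟩
      refine Finite.injective_iff_bijective.1 ?_
      rintro ⟨a, x⟩ ⟨a', x'⟩ e
      simp only [F, Prod.mk.injEq, add_left_inj] at e
      obtain ⟨rfl, e⟩ := e
      rw [(by simpa using e : x = x')]
  have n : ∀ r c, N (F ψ f) r c = k := fun r c => (N_F ψ f r c).trans (hk _ _)
  refine ⟨K × A, inferInstance, inferInstance, F ψ f, fun r c => F ψ f r (σ c), l,
    ⟨fun r => (l.1 r).comp σi, fun c => l.2 _⟩, ?_, n, fun r c => ?_⟩
  · rintro ⟨⟨a, x⟩, b, y⟩ ⟨⟨a', x'⟩, b', y'⟩ e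
    simp only [F, σ, Prod.mk.injEq] at e
    have k4 : ∀ a b a' b' : K, a + b = a' + b' → a + w b = a' + w b' → a = a' ∧ b = b' := by decide
    obtain ⟨rfl, rfl⟩ := k4 _ _ _ _ e.1.1 e.2.1
    have ey : y = y' := (hψ a).mul_left_cancel (by linear_combination e.2.2 - e.1.2)
    subst ey
    rw [(by linear_combination e.1.2 : x = x')]
  · rw [← n r (σ c)]
    exact Nat.card_congr (((Equiv.refl _).prodCongr (Equiv.ofBijective σ σi)).subtypeEquiv
      fun p => Iff.rfl)

lemma P_two : P 2 := by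
  refine P_F (A := ZMod 3) (fun a => if a.1 = 0 then 1 else -1) (fun a => if a.1 = 0 then 0 else 1)
    (by decide) (by decide) 2 ?_
  simp only [Nat.card_eq_fintype_card]
  decide

lemma P_three : P 3 := by
  refine P_F (A := ZMod 5) (fun a => (if a.1 = 0 then 1 else -1) * if a.2 = 0 then 1 else 2)
    (fun a => if a.1 = 0 then 0 else 1) (by decide) (by decide) 3 ?_
  simp only [Nat.card_eq_fintype_card]
  decide

lemma P_odd (m : ℕ) : P (2 * m + 5) := by
  have h2 : IsUnit (2 : ZMod (2 * m + 3)) := by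
    have := (ZMod.isUnit_iff_coprime 2 (2 * m + 3)).2 (by
      rw [Nat.coprime_two_left]; exact ⟨m + 1, by ring⟩)
    exact_mod_cast this
  have : Fact (1 < 2 * m + 3) := ⟨by omega⟩
  have u : ∀ a c : ZMod (2 * m + 3), IsUnit a → Nat.card {z // a * z = c} = 1 := by
    intro a c ha
    obtain ⟨a, rfl⟩ := ha
    rw [Nat.card_eq_one_iff_unique]
    exact ⟨⟨fun x y => Subtype.ext (a.isUnit.mul_left_cancel (x.2.trans y.2.symm))⟩,
      ⟨⟨a⁻¹ * c, by simp⟩⟩⟩
  have u1 := fun c => u 2 c h2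
  have u2 := fun c => u (-2) c h2.neg
  have h0 := h2.ne_zero
  refine P_F (A := ZMod (2 * m + 3)) (fun a => if a.1 = 0 then 1 else -1)
    (fun a => if a.2 = 0 then 0 else 1) (fun a => by split_ifs <;> simp) h2 _ ?_
  have s : ∀ g : K → ℕ, ∑ t, g t = g (0, 0) + g (0, 1) + g (1, 0) + g (1, 1) := by
    intro g
    rw [show (Finset.univ : Finset K) = {(0, 0), (0, 1), (1, 0), (1, 1)} by decide]
    rw [Finset.sum_insert (by decide), Finset.sum_insert (by decide), Finset.sum_insert (by decide),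
      Finset.sum_singleton]
    ring
  have o : (1 : ZMod 2) + 1 = 0 := rfl
  have o1 : (1 : ZMod (2 * m + 3)) + 1 = 2 := by ring
  have o2 : (-1 : ZMod (2 * m + 3)) + -1 = -2 := by ring
  have z : ∀ x : ZMod 2, x = 0 ∨ x = 1 := by decide
  rintro ⟨a, a'⟩ ⟨b, b'⟩
  rw [s]
  rcases z a with rfl | rfl <;> rcases z b' with rfl | rfl <;>
    simp only [Prod.fst_add, Prod.snd_add, add_zero, zero_add, o, if_true, one_ne_zero, if_false,
      o1, o2, u1, u2] <;> simp [h0, h0.symm] <;> omega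

lemma P_all (k : ℕ) (hk : 1 ≤ k) : P k := by
  induction k using Nat.strong_induction_on with
  | _ k ih =>
  rcases Nat.even_or_odd' k with ⟨j, rfl | rfl⟩
  · exact P_mul P_two (ih j (by omega) (by omega))
  · rcases j with _ | _ | j
    · exact P_one
    · exact P_three
    · exact P_odd j

theorem result (h : ℕ) : ∃ n, 1 ≤ n ∧ ∃ L M : Fin n → Fin n → Fin n,
    Latin L ∧ Latin M ∧ Orth L M ∧ Homog h L ∧ Homog h M := by
  obtain ⟨α, _, _, L, M, h1, h2, h3, h4, h5⟩ := P_all (h + 1) (by omega)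
  let e := Finite.equivFin α
  have l : ∀ L : α → α → α, Latin L → Latin (fun i j => e (L (e.symm i) (e.symm j))) :=
    fun L h => ⟨fun r => (e.bijective.comp (h.1 _)).comp e.symm.bijective,
      fun c => (e.bijective.comp (h.2 _)).comp e.symm.bijective⟩
  have n : ∀ (L : α → α → α) i j, N (fun i j => e (L (e.symm i) (e.symm j))) i j =
      N L (e.symm i) (e.symm j) := fun L i j =>
    Nat.card_congr ((e.symm.prodCongr e.symm).subtypeEquiv fun p => by simp)
  refine ⟨_, Nat.card_pos, _, _, l L h1, l M h2, ?_, homog (l L h1) fun i j => (n ..).trans (h4 ..),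
    homog (l M h2) fun i j => (n ..).trans (h5 ..)⟩
  rintro ⟨a, b⟩ ⟨c, d⟩ x
  simp only [Prod.mk.injEq, e.apply_eq_iff_eq] at x
  simpa using @h3 (e.symm a, e.symm b) (e.symm c, e.symm d) (Prod.ext x.1 x.2)

end Pool.Agent.Results.MP_510a26_co.All
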